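import Pool.Agent.Lib_helper71.Normal.Defs
import Pool.Agent.Lib_helper71.Normal.Hq

/-!
Mahler's and Koksma's exponents: upper bounds from the lower bounds `Dlb` along the flow, the
comparison of the two exponents, and a lower bound for Koksma's exponent.
-/

set_option autoImplicit false

namespace Pool.Agent.Lib_helper71.Normal

open Polynomial Filter Topology

/-! ### Heights -/

lemma coeff_le_height (P : ℤ[X]) (i : ℕ) : (P.coeff i).natAbs ≤ height P := by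
  by_cases h : i ∈ P.support
  · exact Finset.le_sup (f := fun i => (P.coeff i).natAbs) h
  · rw [Polynomial.notMem_support_iff.mp h]
    simp

lemma abs_coeff_le_height (P : ℤ[X]) (i : ℕ) : |(P.coeff i : ℝ)| ≤ (height P : ℝ) := by
  have h := coeff_le_height P i
  have h2 : (((P.coeff i).natAbs : ℕ) : ℝ) ≤ (height P : ℝ) := by exact_mod_cast h
  rwa [Nat.cast_natAbs, Int.cast_abs] at h2

lemma one_le_height {P : ℤ[X]} (hP : P ≠ 0) : 1 ≤ height P := by
  have h := coeff_le_height P P.natDegree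
  have h1 : P.coeff P.natDegree ≠ 0 := by
    rw [Polynomial.coeff_natDegree]
    exact Polynomial.leadingCoeff_ne_zero.mpr hP
  have h2 : 1 ≤ (P.coeff P.natDegree).natAbs := Int.natAbs_pos.mpr h1
  exact h2.trans h

/-- The coefficient vector. -/
def cv (n : ℕ) (P : ℤ[X]) : Fin (n + 1) → ℤ := fun j => P.coeff j

lemma cv_ne_zero {n : ℕ} {P : ℤ[X]} (hd : P.natDegree ≤ n) (hP : P ≠ 0) : cv n P ≠ 0 := by
  intro h
  apply hP
  ext i
  rw [Polynomial.coeff_zero]
  by_cases hi : i < n + 1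
  · exact congrFun h ⟨i, hi⟩
  · exact Polynomial.coeff_eq_zero_of_natDegree_lt (by omega)

lemma evL_cv {n : ℕ} {P : ℤ[X]} (hd : P.natDegree ≤ n) (ξ : ℝ) :
    evL n ξ (cR (cv n P)) = aeval ξ P := by
  rw [evL_apply, Polynomial.aeval_eq_sum_range' (Nat.lt_succ_of_le hd), ← Fin.sum_univ_eq_sum_range
    (fun i => P.coeff i • ξ ^ i)]
  apply Finset.sum_congr rfl
  intro j _
  unfold cR cv
  rw [zsmul_eq_mul, mul_comm]

lemma norm_cv (n : ℕ) (P : ℤ[X]) : ‖cR (cv n P)‖ ≤ (height P : ℝ) := by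
  rw [pi_norm_le_iff_of_nonneg (by positivity)]
  intro j
  rw [Real.norm_eq_abs]
  exact abs_coeff_le_height P j

lemma Dlb_poly {n : ℕ} {c θ : ℝ} {t : ℕ} {ξ : ℝ} (h : Dlb n c θ t ξ) {P : ℤ[X]}
    (hd : P.natDegree ≤ n) (hP : P ≠ 0) :
    c * (2 : ℝ) ^ (-(θ * t)) ≤
      max (((2 : ℝ) ^ t) ^ n * |aeval ξ P|) (((2 : ℝ) ^ t)⁻¹ * (height P : ℝ)) := by
  have h1 := h (cv n P) (cv_ne_zero hd hP)
  rw [norm_hQ n _ ξ (by positivity), evL_cv hd] at h1
  refine h1.trans (max_le_max le_rfl ?_)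
  exact mul_le_mul_of_nonneg_left (norm_cv n P) (by positivity)

/-- There are only finitely many polynomials of bounded degree and height. -/
lemma finite_height_le (n : ℕ) (B : ℝ) :
    {P : ℤ[X] | P.natDegree ≤ n ∧ (height P : ℝ) ≤ B}.Finite := by
  have hinj : Set.InjOn (cv n) {P : ℤ[X] | P.natDegree ≤ n ∧ (height P : ℝ) ≤ B} := by
    intro P hP Q hQ hPQ
    ext i
    by_cases hi : i < n + 1
    · exact congrFun hPQ ⟨i, hi⟩
    · rw [Polynomial.coeff_eq_zero_of_natDegree_lt (lt_of_le_of_lt hP.1 (by omega)),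
        Polynomial.coeff_eq_zero_of_natDegree_lt (lt_of_le_of_lt hQ.1 (by omega))]
  refine Set.Finite.of_finite_image ?_ hinj
  refine (Set.Finite.pi' (fun _ : Fin (n + 1) => Set.finite_Icc (-⌊B⌋) ⌊B⌋)).subset ?_
  rintro _ ⟨P, ⟨-, hP⟩, rfl⟩ j
  have h1 := (abs_coeff_le_height P j).trans hP
  rw [abs_le] at h1
  constructor
  · rw [neg_le]
    apply Int.le_floor.mpr
    push_cast
    unfold cv
    linarith [h1.1]
  · apply Int.le_floor.mpr
    unfold cv
    exact h1.2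

/-! ### The choice of the time -/

lemma exists_time (n : ℕ) (c θ r : ℝ) (T : ℕ) (hc : 0 < c) (hθ0 : 0 < θ) (hθ1 : θ < 1)
    (hr : (n + θ) / (1 - θ) < r) : ∃ B : ℝ, 1 ≤ B ∧ ∀ H : ℝ, B < H → ∃ t : ℕ, T ≤ t ∧
      ((2 : ℝ) ^ t)⁻¹ * H < c * (2 : ℝ) ^ (-(θ * t)) ∧
      ((2 : ℝ) ^ t) ^ n * H ^ (-r) < c * (2 : ℝ) ^ (-(θ * t)) := by
  have hs : 0 < 1 - θ := by linarith
  set s : ℝ := 1 - θ with hsdef
  set ρ : ℝ := (n + θ) / s with hρ
  have hexp : 0 < r - ρ := by linarith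
  set C : ℝ := (2 : ℝ) ^ ((n : ℝ) + θ) * (2 / c) ^ ρ with hC
  have hCpos : 0 < C := by positivity
  -- for `H` large the conditions hold
  have ev1 : ∀ᶠ H : ℝ in atTop, C / c < H ^ (r - ρ) :=
    (tendsto_rpow_atTop hexp).eventually_gt_atTop _
  have ev2 : ∀ᶠ H : ℝ in atTop, (2 : ℝ) ^ (T : ℝ) < (2 / c * H) ^ (1 / s) := by
    have h1 : Tendsto (fun H : ℝ => 2 / c * H) atTop atTop :=
      Tendsto.const_mul_atTop (by positivity) tendsto_id
    exact ((tendsto_rpow_atTop (by positivity : 0 < 1 / s)).comp h1).eventually_gt_atTop _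
  obtain ⟨B, hB⟩ := eventually_atTop.mp (ev1.and ev2)
  refine ⟨max B 1, le_max_right _ _, ?_⟩
  intro H hH
  have hH1 : 1 < H := lt_of_le_of_lt (le_max_right _ _) hH
  have hH0 : 0 < H := by linarith
  obtain ⟨h1, h2⟩ := hB H ((le_max_left _ _).trans hH.le)
  set y : ℝ := (2 / c * H) ^ (1 / s) with hy
  have hypos : 0 < y := by positivity
  have hyT : (2 : ℝ) ^ (T : ℝ) < y := h2
  have hy1 : 1 < y := lt_of_le_of_lt (Real.one_le_rpow one_le_two (by positivity)) hyT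
  set t : ℕ := ⌊Real.logb 2 y⌋₊ + 1 with ht
  have hlog0 : 0 ≤ Real.logb 2 y := Real.logb_nonneg one_lt_two hy1.le
  have ht1 : Real.logb 2 y < (t : ℝ) := by
    rw [ht]; push_cast; exact Nat.lt_floor_add_one _
  have ht2 : (t : ℝ) ≤ Real.logb 2 y + 1 := by
    rw [ht]; push_cast
    linarith [Nat.floor_le hlog0]
  have h2y : (2 : ℝ) ^ (Real.logb 2 y) = y := Real.rpow_logb (by norm_num) (by norm_num) hypos
  have hpt : ((2 : ℝ) ^ t) = (2 : ℝ) ^ (t : ℝ) := (Real.rpow_natCast 2 t).symm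
  have hlt : y < (2 : ℝ) ^ (t : ℝ) := by
    rw [← h2y]
    exact Real.rpow_lt_rpow_of_exponent_lt one_lt_two ht1
  have hle : (2 : ℝ) ^ (t : ℝ) ≤ 2 * y := by
    have := Real.rpow_le_rpow_of_exponent_le one_le_two ht2
    rwa [Real.rpow_add (by norm_num), h2y, Real.rpow_one, mul_comm] at this
  have hTt : T ≤ t := by
    have h3 : (2 : ℝ) ^ (T : ℝ) < (2 : ℝ) ^ (t : ℝ) := hyT.trans hlt
    have h4 : (T : ℝ) < (t : ℝ) := (Real.rpow_lt_rpow_left_iff one_lt_two).mp h3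
    exact_mod_cast h4.le
  refine ⟨t, hTt, ?_, ?_⟩
  · have h3 : (2 / c * H) ≤ ((2 : ℝ) ^ (t : ℝ)) ^ s := by
      have := Real.rpow_le_rpow hypos.le hlt.le hs.le
      rwa [hy, ← Real.rpow_mul (by positivity), one_div_mul_cancel hs.ne', Real.rpow_one] at this
    have h4 : (2 : ℝ) ^ (-(θ * t)) = ((2 : ℝ) ^ t)⁻¹ * ((2 : ℝ) ^ (t : ℝ)) ^ s := by
      rw [hpt, ← Real.rpow_neg (by norm_num), ← Real.rpow_mul (by norm_num),
        ← Real.rpow_add (by norm_num)]
      congr 1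
      rw [hsdef]; ring
    rw [h4]
    have h5 : H < c * ((2 : ℝ) ^ (t : ℝ)) ^ s := by
      have h6 := mul_le_mul_of_nonneg_left h3 hc.le
      have h7 : c * (2 / c * H) = 2 * H := by field_simp
      linarith
    calc ((2 : ℝ) ^ t)⁻¹ * H < ((2 : ℝ) ^ t)⁻¹ * (c * ((2 : ℝ) ^ (t : ℝ)) ^ s) :=
          mul_lt_mul_of_pos_left h5 (by positivity)
      _ = c * (((2 : ℝ) ^ t)⁻¹ * ((2 : ℝ) ^ (t : ℝ)) ^ s) := by ring
  · -- the second condition
    have hnθ : 0 < (n : ℝ) + θ := by positivity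
    have h3 : ((2 : ℝ) ^ (t : ℝ)) ^ ((n : ℝ) + θ) ≤ C * H ^ ρ := by
      have h4 := Real.rpow_le_rpow (by positivity) hle hnθ.le
      refine h4.trans (le_of_eq ?_)
      rw [Real.mul_rpow (by norm_num) hypos.le, hy, ← Real.rpow_mul (by positivity),
        Real.mul_rpow (by positivity) hH0.le, hC, hρ]
      have : 1 / s * ((n : ℝ) + θ) = ((n : ℝ) + θ) / s := by field_simp
      rw [this]
      ring
    have h4 : C * H ^ ρ < c * H ^ r := by
      have h5 : C < c * H ^ (r - ρ) := by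
        rw [div_lt_iff₀ hc] at h1
        linarith
      calc C * H ^ ρ < (c * H ^ (r - ρ)) * H ^ ρ := mul_lt_mul_of_pos_right h5 (by positivity)
        _ = c * H ^ r := by
          rw [mul_assoc, ← Real.rpow_add hH0]
          congr 2
          ring
    have h5 : ((2 : ℝ) ^ t) ^ n = ((2 : ℝ) ^ (t : ℝ)) ^ ((n : ℝ) + θ) * (2 : ℝ) ^ (-(θ * t)) := by
      rw [hpt, ← Real.rpow_natCast ((2 : ℝ) ^ (t : ℝ)) n, ← Real.rpow_mul (by norm_num),
        ← Real.rpow_mul (by norm_num), ← Real.rpow_add (by norm_num)]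
      congr 1
      ring
    have h6 : ((2 : ℝ) ^ (t : ℝ)) ^ ((n : ℝ) + θ) * H ^ (-r) < c := by
      have h7 := h3.trans_lt h4
      calc ((2 : ℝ) ^ (t : ℝ)) ^ ((n : ℝ) + θ) * H ^ (-r)
          < (c * H ^ r) * H ^ (-r) := mul_lt_mul_of_pos_right h7 (by positivity)
        _ = c := by
          rw [mul_assoc, ← Real.rpow_add hH0, add_neg_cancel, Real.rpow_zero, mul_one]
    calc ((2 : ℝ) ^ t) ^ n * H ^ (-r)
        = (((2 : ℝ) ^ (t : ℝ)) ^ ((n : ℝ) + θ) * H ^ (-r)) * (2 : ℝ) ^ (-(θ * t)) := by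
          rw [h5]; ring
      _ < c * (2 : ℝ) ^ (-(θ * t)) := mul_lt_mul_of_pos_right h6 (by positivity)

/-! ### Mahler's exponent is small under `Dlb` -/

theorem mahler_le (n : ℕ) (hn : 1 ≤ n) (ξ τ : ℝ) (hτ : 1 < τ)
    (h : ∀ θ : ℝ, 1 - 1 / τ < θ → θ < 1 → ∃ c : ℝ, 0 < c ∧ ∃ T : ℕ, ∀ t ≥ T, Dlb n c θ t ξ) :
    mahlerExponent n ξ ≤ ((τ * (n + 1) - 1 : ℝ) : EReal) := by
  apply sSup_le
  rintro _ ⟨r, rfl, hinf⟩
  rw [EReal.coe_le_coe_iff]
  by_contra hlt
  push Not at hlt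
  apply hinf
  have hn1 : (0 : ℝ) < n + 1 := by positivity
  have hτ0 : 0 < τ := by linarith
  have hr1 : τ * (n + 1) < 1 + r := by linarith
  have hr0 : 0 < 1 + r := lt_trans (by positivity) hr1
  have hlt2 : 1 - 1 / τ < 1 - (n + 1) / (1 + r) := by
    have : (n + 1 : ℝ) / (1 + r) < 1 / τ := by
      rw [div_lt_div_iff₀ hr0 hτ0]
      linarith
    linarith
  obtain ⟨θ, hθ1, hθ2⟩ := exists_between hlt2
  have hθlt : θ < 1 := by
    have : 0 < (n + 1 : ℝ) / (1 + r) := by positivity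
    linarith
  have hθ0 : 0 < θ := by
    have : 1 / τ < 1 := by rw [div_lt_one hτ0]; exact hτ
    linarith
  obtain ⟨c, hc, T, hT⟩ := h θ hθ1 hθlt
  have hρ : ((n : ℝ) + θ) / (1 - θ) < r := by
    have hs : 0 < 1 - θ := by linarith
    rw [div_lt_iff₀ hs]
    have h3 : (n + 1 : ℝ) / (1 + r) < 1 - θ := by linarith
    rw [div_lt_iff₀ hr0] at h3
    nlinarith
  obtain ⟨B, hB1, hB⟩ := exists_time n c θ r T hc hθ0 hθlt hρ
  apply (finite_height_le n B).subset
  rintro P ⟨hd, hpos, hle⟩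
  refine ⟨hd, ?_⟩
  by_contra hH
  push Not at hH
  obtain ⟨t, htT, h1, h2⟩ := hB _ hH
  have hP : P ≠ 0 := by
    rintro rfl
    simp at hpos
  have h3 := Dlb_poly (hT t htT) hd hP
  rcases le_max_iff.mp h3 with h4 | h4
  · have h5 : ((2 : ℝ) ^ t) ^ n * |aeval ξ P| ≤ ((2 : ℝ) ^ t) ^ n * (height P : ℝ) ^ (-r) :=
      mul_le_mul_of_nonneg_left hle (by positivity)
    linarith
  · linarith

/-! ### Nonvanishing -/

theorem nonvanishing_of_Dlb (n : ℕ) (ξ θ c : ℝ) (hθ : θ < 1) (hc : 0 < c) (T : ℕ)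
    (h : ∀ t ≥ T, Dlb n c θ t ξ) :
    ∀ P : ℤ[X], P ≠ 0 → P.natDegree ≤ n → aeval ξ P ≠ 0 := by
  intro P hP hd h0
  have hs : 0 < 1 - θ := by linarith
  have hH : (0 : ℝ) < height P := by exact_mod_cast one_le_height hP
  have hb : (1 : ℝ) < (2 : ℝ) ^ (1 - θ) := Real.one_lt_rpow one_lt_two hs
  obtain ⟨t, ht⟩ := ((tendsto_pow_atTop_atTop_of_one_lt hb).eventually_gt_atTop
    ((height P : ℝ) / c)).and (eventually_ge_atTop T) |>.exists
  have h1 := Dlb_poly (h t ht.2) hd hP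
  rw [h0, abs_zero, mul_zero] at h1
  have h2 : max (0 : ℝ) (((2 : ℝ) ^ t)⁻¹ * (height P : ℝ)) = ((2 : ℝ) ^ t)⁻¹ * (height P : ℝ) :=
    max_eq_right (by positivity)
  rw [h2] at h1
  have h3 : (2 : ℝ) ^ (-(θ * t)) = ((2 : ℝ) ^ t)⁻¹ * ((2 : ℝ) ^ (1 - θ)) ^ t := by
    rw [← Real.rpow_natCast ((2 : ℝ) ^ (1 - θ)) t, ← Real.rpow_mul (by norm_num),
      ← Real.rpow_natCast 2 t, ← Real.rpow_neg (by norm_num), ← Real.rpow_add (by norm_num)]
    congr 1
    ring
  rw [h3] at h1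
  have h4 : c * ((2 : ℝ) ^ (1 - θ)) ^ t ≤ (height P : ℝ) := by
    have h5 : ((2 : ℝ) ^ t)⁻¹ * (c * ((2 : ℝ) ^ (1 - θ)) ^ t) ≤
        ((2 : ℝ) ^ t)⁻¹ * (height P : ℝ) := by
      calc _ = c * (((2 : ℝ) ^ t)⁻¹ * ((2 : ℝ) ^ (1 - θ)) ^ t) := by ring
        _ ≤ _ := h1
    exact le_of_mul_le_mul_left h5 (by positivity)
  have h5 := ht.1
  rw [div_lt_iff₀ hc] at h5
  linarith

/-! ### Koksma's exponent is at most Mahler's exponent -/

/-- The Lipschitz constant. -/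
noncomputable def lipC (n : ℕ) (ξ : ℝ) : ℝ := (n + 1) * (n * (|ξ| + 1) ^ n)

lemma lipschitz_poly {n : ℕ} {P : ℤ[X]} (hd : P.natDegree ≤ n) (ξ α : ℝ) (h : |ξ - α| ≤ 1) :
    |aeval ξ P - aeval α P| ≤ lipC n ξ * (height P : ℝ) * |ξ - α| := by
  rw [Polynomial.aeval_eq_sum_range' (Nat.lt_succ_of_le hd),
    Polynomial.aeval_eq_sum_range' (Nat.lt_succ_of_le hd), ← Finset.sum_sub_distrib]
  refine (Finset.abs_sum_le_sum_abs _ _).trans ?_
  have h1 : ∀ i ∈ Finset.range (n + 1), |P.coeff i • ξ ^ i - P.coeff i • α ^ i| ≤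
      (height P : ℝ) * (|ξ - α| * (n * (|ξ| + 1) ^ n)) := by
    intro i hi
    have hi' : i ≤ n := Nat.lt_succ_iff.mp (Finset.mem_range.mp hi)
    rw [← smul_sub, zsmul_eq_mul, abs_mul]
    apply mul_le_mul (abs_coeff_le_height P i) _ (abs_nonneg _) (by positivity)
    refine (abs_pow_sub_pow_le ξ α i).trans ?_
    rw [mul_assoc]
    apply mul_le_mul_of_nonneg_left _ (abs_nonneg _)
    have hα : |α| ≤ |ξ| + 1 := by
      have : |α| ≤ |ξ| + |α - ξ| := by
        have := abs_add_le ξ (α - ξ)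
        simpa using this
      rw [abs_sub_comm] at this
      linarith
    have hmax : max |ξ| |α| ≤ |ξ| + 1 := max_le (by linarith) hα
    have h2 : max |ξ| |α| ^ (i - 1) ≤ (|ξ| + 1) ^ n := by
      calc max |ξ| |α| ^ (i - 1) ≤ (|ξ| + 1) ^ (i - 1) :=
            pow_le_pow_left₀ (le_max_of_le_left (abs_nonneg _)) hmax _
        _ ≤ (|ξ| + 1) ^ n := pow_le_pow_right₀ (by linarith [abs_nonneg ξ]) (by omega)
    apply mul_le_mul (by exact_mod_cast hi') h2 (by positivity) (by positivity)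
  refine (Finset.sum_le_sum h1).trans (le_of_eq ?_)
  rw [Finset.sum_const, Finset.card_range, nsmul_eq_mul]
  unfold lipC
  push_cast
  ring

lemma neg_one_le_mahler (n : ℕ) (ξ : ℝ) : ((-1 : ℝ) : EReal) ≤ mahlerExponent n ξ := by
  apply le_sSup
  refine ⟨-1, rfl, ?_⟩
  apply Set.infinite_of_injective_forall_mem (f := fun k : ℕ => (C ((k : ℤ) + 1) : ℤ[X]))
  · intro a b hab
    have := Polynomial.C_injective hab
    simpa using this
  · intro k
    have hk : ((k : ℤ) + 1) ≠ 0 := by positivity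
    have hh : height (C ((k : ℤ) + 1) : ℤ[X]) = k + 1 := by
      unfold height
      rw [Polynomial.support_C hk, Finset.sup_singleton, Polynomial.coeff_C_zero]
      omega
    have hab : |(k : ℝ) + 1| = (k : ℝ) + 1 := abs_of_pos (by positivity)
    refine ⟨(Polynomial.natDegree_C _).le.trans (Nat.zero_le _), ?_, ?_⟩
    · rw [Polynomial.aeval_C]
      simp only [algebraMap_int_eq, eq_intCast]
      push_cast
      rw [hab]
      positivity
    · rw [Polynomial.aeval_C, hh]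
      simp only [algebraMap_int_eq, eq_intCast, neg_neg, Real.rpow_one]
      push_cast
      rw [hab]

lemma minpoly_ne_zero {P : ℤ[X]} {α : ℝ} (h : IsMinPoly P α) : P ≠ 0 := by
  rintro rfl
  have := h.2.1
  simp at this

theorem koksma_le_mahler (n : ℕ) (ξ : ℝ)
    (h : ∀ P : ℤ[X], P ≠ 0 → P.natDegree ≤ n → aeval ξ P ≠ 0) :
    koksmaExponent n ξ ≤ mahlerExponent n ξ := by
  apply sSup_le
  rintro _ ⟨r, rfl, hinf⟩
  rcases le_or_gt r (-1) with hr | hr
  · exact (EReal.coe_le_coe_iff.mpr hr).trans (neg_one_le_mahler n ξ)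
  -- it suffices to treat all `r' < r`
  have key : ∀ r' : ℝ, r' < r → (r' : EReal) ≤ mahlerExponent n ξ := by
    intro r' hr'
    apply le_sSup
    refine ⟨r', rfl, ?_⟩
    intro hfin
    apply hinf
    -- heights beyond `B` give good polynomials
    have ev : ∀ᶠ H : ℝ in atTop, lipC n ξ < H ^ (r - r') :=
      (tendsto_rpow_atTop (by linarith : 0 < r - r')).eventually_gt_atTop _
    obtain ⟨B, hB⟩ := eventually_atTop.mp ev
    have hfin2 := hfin.union (finite_height_le n B)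
    -- the roots of finitely many nonzero polynomials
    have hfin3 : (⋃ P ∈ ({P : ℤ[X] | P.natDegree ≤ n ∧ 0 < |aeval ξ P| ∧
        |aeval ξ P| ≤ (height P : ℝ) ^ (-r')} ∪ {P : ℤ[X] | P.natDegree ≤ n ∧ (height P : ℝ) ≤ B}),
        {α : ℝ | P ≠ 0 ∧ aeval α P = 0}).Finite := by
      apply Set.Finite.biUnion hfin2
      intro P _
      by_cases hP : P = 0
      · simp [hP]
      · refine (Polynomial.rootSet_finite P ℝ).subset ?_
        rintro α ⟨-, hα⟩
        rw [Polynomial.mem_rootSet]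
        exact ⟨hP, hα⟩
    apply hfin3.subset
    rintro α ⟨P, hmin, hd, hpos, hle⟩
    have hP0 : P ≠ 0 := minpoly_ne_zero hmin
    simp only [Set.mem_iUnion]
    refine ⟨P, ?_, hP0, hmin.2.2.1⟩
    by_cases hH : (height P : ℝ) ≤ B
    · exact Or.inr ⟨hd, hH⟩
    · left
      push Not at hH
      refine ⟨hd, abs_pos.mpr (h P hP0 hd), ?_⟩
      have hH1 : (1 : ℝ) ≤ height P := by exact_mod_cast one_le_height hP0
      have hH0 : (0 : ℝ) < height P := by linarith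
      have hle1 : |ξ - α| ≤ 1 := by
        refine hle.trans ?_
        exact Real.rpow_le_one_of_one_le_of_nonpos hH1 (by linarith)
      have h1 := lipschitz_poly hd ξ α hle1
      rw [hmin.2.2.1, sub_zero] at h1
      refine h1.trans ?_
      have hlip0 : 0 ≤ lipC n ξ := by unfold lipC; positivity
      calc lipC n ξ * (height P : ℝ) * |ξ - α|
          ≤ lipC n ξ * (height P : ℝ) * (height P : ℝ) ^ (-r - 1) :=
            mul_le_mul_of_nonneg_left hle (by positivity)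
        _ = lipC n ξ * (height P : ℝ) ^ (-r) := by
            rw [mul_assoc]
            congr 1
            nth_rewrite 1 [← Real.rpow_one (height P : ℝ)]
            rw [← Real.rpow_add hH0]
            congr 1
            ring
        _ ≤ (height P : ℝ) ^ (r - r') * (height P : ℝ) ^ (-r) :=
            mul_le_mul_of_nonneg_right (hB _ hH.le).le (by positivity)
        _ = (height P : ℝ) ^ (-r') := by
            rw [← Real.rpow_add hH0]
            congr 1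
            ring
  refine le_of_forall_lt fun x hx => ?_
  -- a real number between
  induction x with
  | bot =>
    obtain ⟨r', hr'⟩ := exists_lt r
    exact lt_of_lt_of_le (EReal.bot_lt_coe r') (key r' hr')
  | top => exact absurd hx (by simp)
  | coe x =>
    obtain ⟨r', h1, h2⟩ := exists_between (EReal.coe_lt_coe_iff.mp hx)
    exact lt_of_lt_of_le (EReal.coe_lt_coe_iff.mpr h1) (key r' h2)

/-! ### A lower bound for Koksma's exponent -/

theorem koksma_ge (n : ℕ) (ξ w : ℝ)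
    (h : ∀ ε : ℝ, 0 < ε → ∃ (α : ℝ) (P : ℤ[X]), IsMinPoly P α ∧ P.natDegree ≤ n ∧
      0 < |ξ - α| ∧ |ξ - α| < ε ∧ |ξ - α| ≤ (height P : ℝ) ^ (-w - 1)) :
    (w : EReal) ≤ koksmaExponent n ξ := by
  apply le_sSup
  refine ⟨w, rfl, ?_⟩
  intro hfin
  by_cases hne : {α : ℝ | ∃ P : ℤ[X], IsMinPoly P α ∧ P.natDegree ≤ n ∧ 0 < |ξ - α| ∧
      |ξ - α| ≤ (height P : ℝ) ^ (-w - 1)}.Nonempty
  · obtain ⟨α0, hα0, hmin⟩ := Set.exists_min_image _ (fun α => |ξ - α|) hfin hne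
    obtain ⟨P0, -, -, hpos, -⟩ := hα0
    obtain ⟨α, P, h1, h2, h3, h4, h5⟩ := h _ hpos
    exact absurd (hmin α ⟨P, h1, h2, h3, h5⟩) (not_le.mpr h4)
  · obtain ⟨α, P, h1, h2, h3, -, h5⟩ := h 1 one_pos
    exact hne ⟨α, P, h1, h2, h3, h5⟩

end Pool.Agent.Lib_helper71.Normal
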