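import Pool.Agent.Lib_helper71.Normal.Defs

/-!
Second moment bounds for the Weyl sums `∑ e(m b^j x)` over an interval of `x`, and the exceptional
set on which some of them are large.
-/

set_option autoImplicit false

namespace Pool.Agent.Lib_helper71.Normal

open MeasureTheory Filter Topology

namespace W2

lemma e_continuous : Continuous e := by
  unfold e; fun_prop

lemma e_lin_continuous (K : ℝ) : Continuous (fun x : ℝ => e (K * x)) := by
  unfold e; fun_prop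

lemma norm_e (x : ℝ) : ‖e x‖ = 1 := by
  have : e x = Complex.exp (((2 * Real.pi * x : ℝ) : ℂ) * Complex.I) := by
    unfold e; push_cast; rfl
  rw [this]
  exact Complex.norm_exp_ofReal_mul_I _

lemma e_mul_conj (x y : ℝ) : e x * (starRingEnd ℂ) (e y) = e (x - y) := by
  unfold e
  rw [← Complex.exp_conj, ← Complex.exp_add]
  congr 1
  simp only [map_mul, Complex.conj_ofReal, Complex.conj_I, map_ofNat]
  push_cast
  ring

lemma norm_integral_e_le (K : ℝ) (hK : K ≠ 0) (c d : ℝ) :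
    ‖∫ x in c..d, e (K * x)‖ ≤ 1 / |K| := by
  have hpi : (0 : ℝ) < Real.pi := Real.pi_pos
  set a : ℂ := 2 * Real.pi * K * Complex.I with ha
  have ha0 : a ≠ 0 := by
    rw [ha]
    simp [hK, hpi.ne']
  have h1 : ∀ x : ℝ, e (K * x) = Complex.exp (a * x) := by
    intro x
    unfold e
    rw [ha]
    congr 1
    push_cast
    ring
  have h2 : (∫ x in c..d, e (K * x)) = (Complex.exp (a * d) - Complex.exp (a * c)) / a := by
    simp_rw [h1]
    exact integral_exp_mul_complex ha0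
  rw [h2, norm_div]
  have h3 : ‖Complex.exp (a * d) - Complex.exp (a * c)‖ ≤ 2 := by
    refine (norm_sub_le _ _).trans ?_
    rw [← h1, ← h1, norm_e, norm_e]
    norm_num
  have h4 : ‖a‖ = 2 * Real.pi * |K| := by
    rw [ha]
    simp [abs_of_pos hpi]
  rw [h4]
  have hK' : 0 < |K| := abs_pos.mpr hK
  rw [div_le_div_iff₀ (by positivity) hK']
  have hpi3 : (3 : ℝ) < Real.pi := Real.pi_gt_three
  nlinarith

/-- the Weyl sum -/
noncomputable def S (m b J N : ℕ) (x : ℝ) : ℂ :=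
  ∑ j ∈ Finset.Ico J (J + N), e (m * b ^ j * x)

lemma S_continuous (m b J N : ℕ) : Continuous (S m b J N) := by
  unfold S
  exact continuous_finsetSum _ (fun j _ => e_lin_continuous _)

lemma S_succ (m b J N : ℕ) (x : ℝ) : S m b J (N + 1) x = S m b J N x + e (m * b ^ (J + N) * x) := by
  unfold S
  rw [← add_assoc, Finset.sum_Ico_succ_top (by omega)]

lemma norm_S_le (m b J N : ℕ) (x : ℝ) : ‖S m b J N x‖ ≤ N := by
  unfold S
  refine (norm_sum_le _ _).trans ?_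
  simp [norm_e]

lemma S_add (m b J N M : ℕ) (x : ℝ) : S m b J (N + M) x = S m b J N x + S m b (J + N) M x := by
  unfold S
  rw [← Finset.sum_Ico_consecutive _ (Nat.le_add_right J N) (by omega : J + N ≤ J + (N + M))]
  rw [add_assoc J N M]

/-- second moment over an interval -/
lemma second_moment (m b J : ℕ) (hm : 1 ≤ m) (hb : 2 ≤ b) (c d : ℝ) (hcd : c < d)
    (hJ : 1 ≤ (d - c) * (b : ℝ) ^ J) (N : ℕ) :
    ∫ x in c..d, ‖S m b J N x‖ ^ 2 ≤ 5 * N * (d - c) := by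
  induction N with
  | zero => simp [S]
  | succ N ih =>
    have hcont : Continuous (fun x => ‖S m b J N x‖ ^ 2) := ((S_continuous m b J N).norm).pow 2
    have hcross : Continuous (fun x : ℝ => (S m b J N x * (starRingEnd ℂ) (e (m * b ^ (J + N) * x)))) :=
      (S_continuous m b J N).mul (Complex.continuous_conj.comp (e_lin_continuous _))
    have hpt : ∀ x : ℝ, ‖S m b J (N + 1) x‖ ^ 2 = ‖S m b J N x‖ ^ 2 + 1
        + 2 * (S m b J N x * (starRingEnd ℂ) (e (m * b ^ (J + N) * x))).re := by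
      intro x
      rw [S_succ, ← Complex.normSq_eq_norm_sq, Complex.normSq_add, Complex.normSq_eq_norm_sq,
        Complex.normSq_eq_norm_sq, norm_e]
      norm_num
    have hint1 : IntervalIntegrable (fun x => ‖S m b J N x‖ ^ 2) volume c d :=
      hcont.intervalIntegrable _ _
    have hint2 : IntervalIntegrable (fun x : ℝ =>
        (S m b J N x * (starRingEnd ℂ) (e (m * b ^ (J + N) * x)))) volume c d :=
      hcross.intervalIntegrable _ _
    have hint3 : IntervalIntegrable (fun x : ℝ =>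
        2 * (S m b J N x * (starRingEnd ℂ) (e (m * b ^ (J + N) * x))).re) volume c d :=
      (continuous_const.mul (Complex.continuous_re.comp hcross)).intervalIntegrable _ _
    have hre : (∫ x in c..d, (S m b J N x * (starRingEnd ℂ) (e (m * b ^ (J + N) * x))).re)
        = (∫ x in c..d, (S m b J N x * (starRingEnd ℂ) (e (m * b ^ (J + N) * x)))).re := by
      have := Complex.reCLM.intervalIntegral_comp_comm hint2
      simpa using this
    have heq : ∫ x in c..d, ‖S m b J (N + 1) x‖ ^ 2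
        = (∫ x in c..d, ‖S m b J N x‖ ^ 2) + (d - c)
          + 2 * (∫ x in c..d, (S m b J N x * (starRingEnd ℂ) (e (m * b ^ (J + N) * x)))).re := by
      rw [← hre]
      simp_rw [hpt]
      rw [intervalIntegral.integral_add (hint1.add (continuous_const.intervalIntegrable _ _)) hint3,
        intervalIntegral.integral_add hint1 (continuous_const.intervalIntegrable _ _),
        intervalIntegral.integral_const_mul]
      simp
    -- the cross term
    have hbR : (2 : ℝ) ≤ b := by exact_mod_cast hb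
    have hbpos : (0 : ℝ) < b := by linarith
    have hsum : (∫ x in c..d, (S m b J N x * (starRingEnd ℂ) (e (m * b ^ (J + N) * x))))
        = ∑ j ∈ Finset.Ico J (J + N), ∫ x in c..d, e ((m * b ^ j - m * b ^ (J + N)) * x) := by
      rw [← intervalIntegral.integral_finsetSum
        (fun j _ => (e_lin_continuous _).intervalIntegrable _ _)]
      congr 1
      ext x
      unfold S
      rw [Finset.sum_mul]
      refine Finset.sum_congr rfl (fun j _ => ?_)
      rw [e_mul_conj]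
      congr 1
      ring
    have hterm : ∀ j ∈ Finset.Ico J (J + N),
        ‖∫ x in c..d, e (((m : ℝ) * b ^ j - m * b ^ (J + N)) * x)‖ ≤ 2 / (b : ℝ) ^ (J + N) := by
      intro j hj
      rw [Finset.mem_Ico] at hj
      have hbj : (b : ℝ) ^ j * 2 ≤ (b : ℝ) ^ (J + N) := by
        calc (b : ℝ) ^ j * 2 ≤ (b : ℝ) ^ j * b := by gcongr
          _ = (b : ℝ) ^ (j + 1) := by rw [pow_succ]
          _ ≤ (b : ℝ) ^ (J + N) := pow_le_pow_right₀ (by linarith) (by omega)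
      have hmR : (1 : ℝ) ≤ m := by exact_mod_cast hm
      have hP : (0 : ℝ) < (b : ℝ) ^ (J + N) := by positivity
      have hlt : (b : ℝ) ^ (J + N) / 2 ≤ |(m : ℝ) * b ^ j - m * b ^ (J + N)| := by
        rw [abs_sub_comm, ← mul_sub, abs_of_nonneg (mul_nonneg (by linarith) (by nlinarith))]
        have h0 : (b : ℝ) ^ (J + N) / 2 ≤ (b : ℝ) ^ (J + N) - (b : ℝ) ^ j := by linarith
        calc (b : ℝ) ^ (J + N) / 2 ≤ 1 * ((b : ℝ) ^ (J + N) - (b : ℝ) ^ j) := by linarith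
          _ ≤ m * ((b : ℝ) ^ (J + N) - (b : ℝ) ^ j) := by
            apply mul_le_mul_of_nonneg_right hmR
            linarith [pow_pos hbpos j]
      have hK : (m : ℝ) * b ^ j - m * b ^ (J + N) ≠ 0 := by
        intro h0
        rw [h0, abs_zero] at hlt
        linarith
      refine (norm_integral_e_le _ hK c d).trans ?_
      rw [div_le_div_iff₀ (abs_pos.mpr hK) hP]
      linarith
    have hnorm : ‖∫ x in c..d, (S m b J N x * (starRingEnd ℂ) (e (m * b ^ (J + N) * x)))‖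
        ≤ N * (2 / (b : ℝ) ^ (J + N)) := by
      rw [hsum]
      refine (norm_sum_le _ _).trans ((Finset.sum_le_sum hterm).trans ?_)
      rw [Finset.sum_const, Nat.card_Ico, nsmul_eq_mul]
      simp
    have hN2 : (N : ℝ) ≤ (b : ℝ) ^ N := by
      have h1 : (N : ℝ) ≤ (2 : ℝ) ^ N := by exact_mod_cast (Nat.lt_two_pow_self (n := N)).le
      exact h1.trans (pow_le_pow_left₀ (by norm_num) hbR N)
    have hfin : (N : ℝ) * (2 / (b : ℝ) ^ (J + N)) ≤ 2 * (d - c) := by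
      rw [pow_add, mul_div_assoc', div_le_iff₀ (by positivity)]
      have hbN : (0 : ℝ) < (b : ℝ) ^ N := by positivity
      have hbJ : (0 : ℝ) < (b : ℝ) ^ J := by positivity
      calc (N : ℝ) * 2 ≤ 2 * (b : ℝ) ^ N := by linarith
        _ = 2 * (1 * (b : ℝ) ^ N) := by ring
        _ ≤ 2 * (((d - c) * (b : ℝ) ^ J) * (b : ℝ) ^ N) := by gcongr
        _ = 2 * (d - c) * ((b : ℝ) ^ J * (b : ℝ) ^ N) := by ring
    have hre_le := (Complex.re_le_norm
      (∫ x in c..d, (S m b J N x * (starRingEnd ℂ) (e (m * b ^ (J + N) * x)))))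
    rw [heq]
    push_cast
    linarith

/-- Chebyshev for one Weyl sum -/
lemma chebyshev (m b J : ℕ) (hm : 1 ≤ m) (hb : 2 ≤ b) (c d : ℝ) (hcd : c < d)
    (hJ : 1 ≤ (d - c) * (b : ℝ) ^ J) (δ : ℝ) (hδ : 0 < δ) (M : ℕ) (hM : 0 < M) :
    volume {x ∈ Set.Icc c d | δ * (M : ℝ) ^ 2 < ‖S m b J (M ^ 2) x‖}
      ≤ ENNReal.ofReal (5 * (d - c) / δ ^ 2 * (1 / (M : ℝ) ^ 2)) := by
  have hMR : (0 : ℝ) < M := by exact_mod_cast hM
  set μ := volume.restrict (Set.Icc c d) with hμ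
  have hcont : Continuous (fun x => ‖S m b J (M ^ 2) x‖ ^ 2) :=
    ((S_continuous m b J (M ^ 2)).norm).pow 2
  have hint : Integrable (fun x => ‖S m b J (M ^ 2) x‖ ^ 2) μ :=
    hcont.integrableOn_Icc
  have hI : ∫ x, ‖S m b J (M ^ 2) x‖ ^ 2 ∂μ ≤ 5 * (M : ℝ) ^ 2 * (d - c) := by
    have h1 := second_moment m b J hm hb c d hcd hJ (M ^ 2)
    rw [intervalIntegral.integral_of_le hcd.le, ← integral_Icc_eq_integral_Ioc] at h1
    push_cast at h1
    exact h1
  have hcheb := mul_meas_ge_le_integral_of_nonneg (μ := μ)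
    (f := fun x => ‖S m b J (M ^ 2) x‖ ^ 2) (Eventually.of_forall (fun x => by positivity)) hint
    ((δ * (M : ℝ) ^ 2) ^ 2)
  have hsub : {x ∈ Set.Icc c d | δ * (M : ℝ) ^ 2 < ‖S m b J (M ^ 2) x‖}
      ⊆ {x | (δ * (M : ℝ) ^ 2) ^ 2 ≤ ‖S m b J (M ^ 2) x‖ ^ 2} ∩ Set.Icc c d := by
    rintro x ⟨hx, hx2⟩
    refine ⟨?_, hx⟩
    show (δ * (M : ℝ) ^ 2) ^ 2 ≤ ‖S m b J (M ^ 2) x‖ ^ 2
    exact pow_le_pow_left₀ (by positivity) hx2.le 2
  have hmeas : volume ({x | (δ * (M : ℝ) ^ 2) ^ 2 ≤ ‖S m b J (M ^ 2) x‖ ^ 2} ∩ Set.Icc c d)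
      = μ {x | (δ * (M : ℝ) ^ 2) ^ 2 ≤ ‖S m b J (M ^ 2) x‖ ^ 2} := by
    rw [hμ, Measure.restrict_apply (measurableSet_le measurable_const hcont.measurable)]
  refine (measure_mono hsub).trans ?_
  rw [hmeas]
  have hfin : μ {x | (δ * (M : ℝ) ^ 2) ^ 2 ≤ ‖S m b J (M ^ 2) x‖ ^ 2} ≠ ⊤ := measure_ne_top _ _
  rw [← ENNReal.ofReal_toReal hfin]
  apply ENNReal.ofReal_le_ofReal
  have hpos : (0 : ℝ) < (δ * (M : ℝ) ^ 2) ^ 2 := by positivity
  have h2 : (δ * (M : ℝ) ^ 2) ^ 2 *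
      (μ {x | (δ * (M : ℝ) ^ 2) ^ 2 ≤ ‖S m b J (M ^ 2) x‖ ^ 2}).toReal
      ≤ 5 * (M : ℝ) ^ 2 * (d - c) := hcheb.trans hI
  have h3 : (μ {x | (δ * (M : ℝ) ^ 2) ^ 2 ≤ ‖S m b J (M ^ 2) x‖ ^ 2}).toReal
      ≤ 5 * (M : ℝ) ^ 2 * (d - c) / (δ * (M : ℝ) ^ 2) ^ 2 := by
    rw [le_div_iff₀ hpos]; linarith
  refine h3.trans (le_of_eq ?_)
  field_simp

end W2

open W2 in
theorem weyl_interval (B : ℕ) (ε ζ : ℝ) (hε : 0 < ε) (hζ : 0 < ζ) : ∃ N0 : ℕ, ∀ c d : ℝ, c < d →
    ∀ J : ℕ → ℕ, (∀ b, 2 ≤ b → b ≤ B → 1 ≤ (d - c) * (b : ℝ) ^ J b) →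
    MeasureTheory.volume {x ∈ Set.Icc c d | ∃ b m N : ℕ, 2 ≤ b ∧ b ≤ B ∧ 1 ≤ m ∧ m ≤ B ∧
      ε * N + N0 < ‖∑ j ∈ Finset.Ico (J b) (J b + N), e (m * b ^ j * x)‖}
      ≤ ENNReal.ofReal (ζ * (d - c)) := by
  classical
  set δ : ℝ := ε / 2 with hδ
  have hδ0 : 0 < δ := by rw [hδ]; linarith
  set f : ℕ → ℝ := fun k => 1 / (k : ℝ) ^ 2 with hf
  have hfs : Summable f := by
    rw [hf]; exact Real.summable_one_div_nat_pow.mpr (by norm_num)
  have hf0 : ∀ k, 0 ≤ f k := fun k => by rw [hf]; positivity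
  have htail : Tendsto (fun i => ∑' k, f (k + i)) atTop (𝓝 0) := tendsto_sum_nat_add f
  set C : ℝ := ((B : ℝ) + 1) ^ 2 * (5 / δ ^ 2) with hC
  have hC0 : 0 < C := by rw [hC]; positivity
  obtain ⟨M0, hM0, hM1⟩ : ∃ M0 : ℕ, ∑' k, f (k + M0) < ζ / C ∧ 1 ≤ M0 := by
    have h1 : ∀ᶠ i in atTop, ∑' k, f (k + i) < ζ / C :=
      htail.eventually (gt_mem_nhds (by positivity))
    exact (h1.and (eventually_ge_atTop 1)).exists
  obtain ⟨N1, hN1⟩ := exists_nat_ge (2 / ε)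
  refine ⟨M0 ^ 2 + N1, ?_⟩
  intro c d hcd J hJ
  have hdc : 0 < d - c := by linarith
  -- the exceptional set is contained in a union
  set A : ℕ → ℕ → ℕ → Set ℝ := fun b m k =>
    {x ∈ Set.Icc c d | 2 ≤ b ∧ b ≤ B ∧ 1 ≤ m ∧ δ * ((k + M0 : ℕ) : ℝ) ^ 2 < ‖S m b (J b) ((k + M0) ^ 2) x‖} with hA
  have hsub : {x ∈ Set.Icc c d | ∃ b m N : ℕ, 2 ≤ b ∧ b ≤ B ∧ 1 ≤ m ∧ m ≤ B ∧
      ε * N + ((M0 ^ 2 + N1 : ℕ) : ℝ) < ‖∑ j ∈ Finset.Ico (J b) (J b + N), e (m * b ^ j * x)‖}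
      ⊆ ⋃ b ∈ Finset.range (B + 1), ⋃ m ∈ Finset.range (B + 1), ⋃ k, A b m k := by
    rintro x ⟨hx, b, m, N, hb2, hbB, hm1, hmB, hlt⟩
    simp only [Set.mem_iUnion, Finset.mem_range]
    refine ⟨b, by omega, m, by omega, ?_⟩
    change ε * N + ((M0 ^ 2 + N1 : ℕ) : ℝ) < ‖S m b (J b) N x‖ at hlt
    set M := Nat.sqrt N with hM
    have hMN : M ^ 2 ≤ N := Nat.sqrt_le' N
    have hMN2 : N < (M + 1) ^ 2 := Nat.lt_succ_sqrt' N
    by_cases hMM : M < M0
    · exfalso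
      have h1 : (M + 1) ^ 2 ≤ M0 ^ 2 := Nat.pow_le_pow_left hMM 2
      have h2 : (N : ℝ) ≤ ((M0 ^ 2 + N1 : ℕ) : ℝ) := by
        exact_mod_cast (by omega : N ≤ M0 ^ 2 + N1)
      have h3 := norm_S_le m b (J b) N x
      have h4 : 0 ≤ ε * (N : ℝ) := by positivity
      linarith
    · push Not at hMM
      refine ⟨M - M0, hx, hb2, hbB, hm1, ?_⟩
      have hMeq : M - M0 + M0 = M := by omega
      rw [hMeq]
      by_contra hle
      push Not at hle
      obtain ⟨R, hR⟩ : ∃ R, N = M ^ 2 + R := ⟨N - M ^ 2, by omega⟩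
      have hR2 : R ≤ 2 * M := by nlinarith
      have h5 : ‖S m b (J b) N x‖ ≤ δ * (M : ℝ) ^ 2 + 2 * M := by
        rw [hR, S_add]
        refine (norm_add_le _ _).trans (add_le_add hle ?_)
        refine (norm_S_le _ _ _ _ _).trans ?_
        exact_mod_cast hR2
      have h6 : (2 : ℝ) * M ≤ δ * (M : ℝ) ^ 2 + 2 / ε := by
        have h7 : 0 ≤ (ε * M - 2) ^ 2 := sq_nonneg _
        have h8 : δ * (M : ℝ) ^ 2 + 2 / ε - 2 * M = (ε * M - 2) ^ 2 / (2 * ε) := by
          rw [hδ]; field_simp; ring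
        have h9 : 0 ≤ (ε * M - 2) ^ 2 / (2 * ε) := by positivity
        linarith
      have h10 : ((M ^ 2 : ℕ) : ℝ) ≤ N := by exact_mod_cast hMN
      have h11 : ε * (M : ℝ) ^ 2 ≤ ε * N := by
        push_cast at h10
        exact mul_le_mul_of_nonneg_left h10 hε.le
      have h12 : (N1 : ℝ) ≤ ((M0 ^ 2 + N1 : ℕ) : ℝ) := by
        exact_mod_cast (by omega : N1 ≤ M0 ^ 2 + N1)
      have h13 : δ * (M : ℝ) ^ 2 + δ * (M : ℝ) ^ 2 = ε * (M : ℝ) ^ 2 := by rw [hδ]; ring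
      linarith
  have hAm : ∀ b m k, volume (A b m k) ≤ ENNReal.ofReal (5 * (d - c) / δ ^ 2 * f (k + M0)) := by
    intro b m k
    by_cases h : 2 ≤ b ∧ b ≤ B ∧ 1 ≤ m
    · have h1 := chebyshev m b (J b) h.2.2 h.1 c d hcd (hJ b h.1 h.2.1) δ hδ0 (k + M0) (by omega)
      refine (measure_mono ?_).trans h1
      rintro x ⟨hx, _, _, _, hx2⟩
      exact ⟨hx, hx2⟩
    · have : A b m k = ∅ := by
        ext x
        simp only [hA, Set.mem_ofPred_eq, Set.mem_empty_iff_false, iff_false]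
        rintro ⟨_, h1, h2, h3, _⟩
        exact h ⟨h1, h2, h3⟩
      rw [this, measure_empty]
      exact bot_le
  have hfs' : Summable (fun k => 5 * (d - c) / δ ^ 2 * f (k + M0)) :=
    ((summable_nat_add_iff M0).mpr hfs).mul_left _
  have hk : ∀ b m, volume (⋃ k, A b m k) ≤ ENNReal.ofReal (5 * (d - c) / δ ^ 2 * ∑' k, f (k + M0)) := by
    intro b m
    refine (measure_iUnion_le _).trans ((ENNReal.tsum_le_tsum (hAm b m)).trans ?_)
    rw [← ENNReal.ofReal_tsum_of_nonneg (fun k => by have := hf0 (k + M0); positivity) hfs',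
      tsum_mul_left]
  refine (measure_mono hsub).trans ?_
  refine (measure_biUnion_finset_le _ _).trans ?_
  have hstep : ∀ b ∈ Finset.range (B + 1),
      volume (⋃ m ∈ Finset.range (B + 1), ⋃ k, A b m k)
      ≤ ∑ m ∈ Finset.range (B + 1), ENNReal.ofReal (5 * (d - c) / δ ^ 2 * ∑' k, f (k + M0)) := by
    intro b _
    refine (measure_biUnion_finset_le _ _).trans ?_
    exact Finset.sum_le_sum (fun m _ => hk b m)
  refine (Finset.sum_le_sum hstep).trans ?_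
  rw [Finset.sum_const, Finset.sum_const, Finset.card_range, nsmul_eq_mul, nsmul_eq_mul]
  have hT0 : 0 ≤ ∑' k, f (k + M0) := tsum_nonneg (fun k => hf0 _)
  have hcast : (((B + 1 : ℕ) : ENNReal)) = ENNReal.ofReal ((B : ℝ) + 1) := by
    rw [← ENNReal.ofReal_natCast]; push_cast; rfl
  rw [hcast, ← ENNReal.ofReal_mul (by positivity), ← ENNReal.ofReal_mul (by positivity)]
  apply ENNReal.ofReal_le_ofReal
  have hE : ((B : ℝ) + 1) * (((B : ℝ) + 1) * (5 * (d - c) / δ ^ 2 * ∑' k, f (k + M0)))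
      = (d - c) * (C * ∑' k, f (k + M0)) := by
    rw [hC]; ring
  rw [hE, mul_comm ζ]
  apply mul_le_mul_of_nonneg_left _ hdc.le
  rw [mul_comm]
  exact ((lt_div_iff₀ hC0).mp hM0).le

end Pool.Agent.Lib_helper71.Normal
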